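import Pool.Agent.R877.RN.Stm2

set_option autoImplicit false

namespace R877.RN.G1
open Matrix Filter Topology R877.RN

/-- a positive quadratic form is bounded below on the sphere -/
theorem qf_lower {n : ℕ} (M : Mat n) (h : ∀ x, x ≠ 0 → 0 < qf M x) :
    ∃ δ : ℝ, 0 < δ ∧ ∀ x, δ * (x ⬝ᵥ x) ≤ qf M x := by
  have hcont : Continuous (fun x : Fin n → ℝ => qf M x) := by
    unfold qf
    exact continuous_id.dotProduct (Continuous.matrix_mulVec continuous_const continuous_id)
  have hc2 : Continuous (fun x : Fin n → ℝ => x ⬝ᵥ x) := continuous_id.dotProduct continuous_id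
  set S : Set (Fin n → ℝ) := {x | x ⬝ᵥ x = 1} with hS
  have hSc : IsCompact S := by
    refine IsCompact.of_isClosed_subset
      (isCompact_univ_pi (fun _ : Fin n => isCompact_Icc (a := (-1 : ℝ)) (b := 1)))
      (isClosed_eq hc2 continuous_const) ?_
    intro x hx i _
    have hx' : ∑ j, x j * x j = 1 := hx
    have h1 : x i * x i ≤ 1 := by
      rw [← hx']
      exact Finset.single_le_sum (f := fun j => x j * x j) (fun j _ => mul_self_nonneg _)
        (Finset.mem_univ i)
    rw [Set.mem_Icc, ← abs_le, ← sq_le_one_iff_abs_le_one, sq]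
    exact h1
  have hhom : ∀ (r : ℝ) (x : Fin n → ℝ), qf M (r • x) = r ^ 2 * qf M x := by
    intro r x
    simp only [qf, Matrix.mulVec_smul, dotProduct_smul, smul_dotProduct, smul_eq_mul]
    ring
  by_cases hne : S.Nonempty
  · obtain ⟨x0, hx0, hmin⟩ := hSc.exists_isMinOn hne hcont.continuousOn
    have hx00 : x0 ≠ 0 := by
      rintro rfl
      simp [hS] at hx0
    refine ⟨qf M x0, h x0 hx00, ?_⟩
    intro x
    by_cases hx : x = 0
    · subst hx; simp [qf]
    · have hpos : 0 < x ⬝ᵥ x := by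
        rcases (show 0 ≤ x ⬝ᵥ x from Finset.sum_nonneg fun i _ => mul_self_nonneg (x i)).lt_or_eq with h1 | h1
        · exact h1
        · exact absurd (dotProduct_self_eq_zero.1 h1.symm) hx
      set r := Real.sqrt (x ⬝ᵥ x) with hr
      have hr0 : 0 < r := Real.sqrt_pos.2 hpos
      have hr2 : r ^ 2 = x ⬝ᵥ x := Real.sq_sqrt hpos.le
      have hmem : (r⁻¹ • x) ∈ S := by
        show (r⁻¹ • x) ⬝ᵥ (r⁻¹ • x) = 1
        rw [smul_dotProduct, dotProduct_smul, ← hr2]
        simp only [smul_eq_mul]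
        field_simp
      have h3 := hmin hmem
      simp only [Set.mem_ofPred_eq] at h3
      rw [hhom] at h3
      have h4 : qf M x0 * r ^ 2 ≤ qf M x := by
        have := mul_le_mul_of_nonneg_right h3 (sq_nonneg r)
        calc qf M x0 * r ^ 2 ≤ r⁻¹ ^ 2 * qf M x * r ^ 2 := this
          _ = qf M x := by field_simp
      rw [← hr2]; exact h4
  · refine ⟨1, one_pos, ?_⟩
    intro x
    have hx : x = 0 := by
      by_contra hx
      apply hne
      have hpos : 0 < x ⬝ᵥ x := by
        rcases (show 0 ≤ x ⬝ᵥ x from Finset.sum_nonneg fun i _ => mul_self_nonneg (x i)).lt_or_eq with h1 | h1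
        · exact h1
        · exact absurd (dotProduct_self_eq_zero.1 h1.symm) hx
      set r := Real.sqrt (x ⬝ᵥ x) with hr
      have hr0 : 0 < r := Real.sqrt_pos.2 hpos
      have hr2 : r ^ 2 = x ⬝ᵥ x := Real.sq_sqrt hpos.le
      refine ⟨r⁻¹ • x, ?_⟩
      show (r⁻¹ • x) ⬝ᵥ (r⁻¹ • x) = 1
      rw [smul_dotProduct, dotProduct_smul, ← hr2]
      simp only [smul_eq_mul]
      field_simp
    subst hx; simp [qf]

end R877.RN.G1
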