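import Pool.Agent.R877.RN.Stm2

set_option autoImplicit false

namespace R877.RN.G1
open Matrix Filter Topology R877.RN

theorem exists_onb {V : Type} [AddCommGroup V] [Module ℝ V] [FiniteDimensional ℝ V]
    (B : V →ₗ[ℝ] V →ₗ[ℝ] ℝ) (hB : IsInner B) (U : Submodule ℝ V) :
    ∃ (k : ℕ) (e : Fin k → V), (∀ i j, B (e i) (e j) = if i = j then 1 else 0) ∧
      (∀ i, ∀ u ∈ U, B (e i) u = 0) ∧ Submodule.span ℝ (Set.range e) ⊔ U = ⊤ ∧
      ∃ b : Module.Basis (Fin (Module.finrank ℝ U)) ℝ U,
        ∀ i j, B (b i) (b j) = if i = j then 1 else 0 := by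
  classical
  let core : InnerProductSpace.Core ℝ V :=
    { inner := fun x y => B x y
      conj_inner_symm := fun x y => by simp [hB.symm y x]
      re_inner_nonneg := fun x => by
        by_cases hx : x = 0
        · simp [hx]
        · exact (hB.pos x hx).le
      add_left := fun x y z => by simp
      smul_left := fun x y r => by simp
      definite := fun x hx => by
        by_contra h
        exact (hB.pos x h).ne' hx }
  letI : NormedAddCommGroup V := core.toNormedAddCommGroup
  letI : InnerProductSpace ℝ V := InnerProductSpace.ofCore core.toCore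
  have hin : ∀ x y : V, inner ℝ x y = B x y := fun x y => rfl
  let e := stdOrthonormalBasis ℝ (Uᗮ)
  let b := stdOrthonormalBasis ℝ U
  refine ⟨_, fun i => (e i : V), ?_, ?_, ?_, b.toBasis, ?_⟩
  · intro i j
    have := orthonormal_iff_ite.1 e.orthonormal i j
    rw [← hin]
    exact this
  · intro i u hu
    rw [← hin]
    exact Submodule.inner_left_of_mem_orthogonal hu (e i).2
  · have h1 : Submodule.span ℝ (Set.range fun i => (e i : V)) = Uᗮ := by
      have h2 : Submodule.span ℝ (Set.range e) = ⊤ := by
        have := e.toBasis.span_eq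
        rwa [OrthonormalBasis.coe_toBasis] at this
      have h3 : (Set.range fun i => (e i : V)) = Uᗮ.subtype '' (Set.range e) := by
        rw [← Set.range_comp]; rfl
      rw [h3, Submodule.span_image, h2, Submodule.map_top, Submodule.range_subtype]
    rw [h1, sup_comm]
    exact Submodule.sup_orthogonal_of_hasOrthogonalProjection
  · intro i j
    have := orthonormal_iff_ite.1 b.orthonormal i j
    rw [← hin, OrthonormalBasis.coe_toBasis]
    exact this

end R877.RN.G1
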