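import Pool.Agent.R877.RN.Stm2

set_option autoImplicit false

namespace R877.RN.G1
open Matrix Filter Topology R877.RN

section
variable {g : Type} [LieRing g] [LieAlgebra ℝ g] {n : LieIdeal ℝ g} {N : ℕ}
  (b β : Module.Basis (Fin N) ℝ n)

theorem cinv : (b.toMatrix β)⁻¹ = β.toMatrix b :=
  Matrix.inv_eq_right_inv (b.toMatrix_mul_toMatrix_flip β)

theorem repr_c (u : n) (k : Fin N) : b.repr u k = ∑ r, b.toMatrix β k r * β.repr u r := by
  have := congrFun (Module.Basis.toMatrix_mulVec_repr β b u) k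
  rw [← this]; rfl

theorem b_exp (i : Fin N) : b i = ∑ p, β.toMatrix b p i • β p :=
  (β.sum_toMatrix_smul_self b i).symm

theorem act_c : act (b.toMatrix β) (muOf β) = muOf b := by
  funext i j k
  unfold act
  rw [cinv]
  show _ = b.repr ⁅b i, b j⁆ k
  have h1 : ⁅b i, b j⁆ = ∑ p, ∑ q, (β.toMatrix b p i * β.toMatrix b q j) • ⁅β p, β q⁆ := by
    rw [b_exp b β i, b_exp b β j, sum_lie]
    refine Finset.sum_congr rfl fun p _ => ?_
    rw [lie_sum]
    refine Finset.sum_congr rfl fun q _ => ?_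
    rw [smul_lie, lie_smul, smul_smul]
  rw [h1]
  simp only [map_sum, map_smul, Finsupp.coe_finset_sum, Finset.sum_apply, Finsupp.coe_smul,
    Pi.smul_apply, smul_eq_mul]
  refine Finset.sum_congr rfl fun p _ => Finset.sum_congr rfl fun q _ => ?_
  rw [repr_c b β, Finset.mul_sum]
  refine Finset.sum_congr rfl fun r _ => ?_
  simp only [muOf]
  ring

theorem conj_c (y : g) : conj (b.toMatrix β) (adOf β y) = adOf b y := by
  ext k i
  unfold conj
  rw [cinv]
  show _ = b.repr ⁅y, b i⁆ k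
  have h1 : ⁅y, b i⁆ = ∑ p, β.toMatrix b p i • ⁅y, β p⁆ := by
    rw [b_exp b β i, lie_sum]
    exact Finset.sum_congr rfl fun p _ => lie_smul _ _ _
  rw [h1]
  simp only [map_sum, map_smul, Finsupp.coe_finset_sum, Finset.sum_apply, Finsupp.coe_smul,
    Pi.smul_apply, smul_eq_mul, Matrix.mul_apply]
  refine Finset.sum_congr rfl fun p _ => ?_
  rw [repr_c b β, Finset.mul_sum, Finset.sum_mul]
  refine Finset.sum_congr rfl fun r _ => ?_
  simp only [adOf]
  ring

theorem adOf_sum {k : ℕ} (τ : Fin k → ℝ) (e : Fin k → g) :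
    adOf b (∑ a, τ a • e a) = ∑ a, τ a • adOf b (e a) := by
  ext i j
  simp only [adOf, Matrix.sum_apply, Matrix.smul_apply, smul_eq_mul]
  rw [sum_lie]
  simp only [smul_lie, map_sum, map_smul, Finsupp.coe_finset_sum, Finset.sum_apply,
    Finsupp.coe_smul, Pi.smul_apply, smul_eq_mul]

theorem tr0 [FiniteDimensional ℝ g] (hn : LieRing.IsNilpotent n) (u : n) :
    ∑ i, b.repr ⁅u, b i⁆ i = 0 := by
  have h1 : IsNilpotent (LieModule.toEnd ℝ n n u) := LieModule.isNilpotent_toEnd_of_isNilpotent ℝ n n u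
  have h2 := (LinearMap.isNilpotent_trace_of_isNilpotent h1).eq_zero
  rw [LinearMap.trace_eq_matrix_trace ℝ b] at h2
  simpa [Matrix.trace, LinearMap.toMatrix_apply] using h2

theorem tr1 [FiniteDimensional ℝ g] (hn : LieRing.IsNilpotent n) (u : n) :
    ∑ i, ∑ j, b.repr ⁅u, b i⁆ j * b.repr ⁅u, b j⁆ i = 0 := by
  have h1 : IsNilpotent (LieModule.toEnd ℝ n n u) := LieModule.isNilpotent_toEnd_of_isNilpotent ℝ n n u
  have h1' : IsNilpotent ((LieModule.toEnd ℝ n n u) * (LieModule.toEnd ℝ n n u)) :=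
    (Commute.refl _).isNilpotent_mul_left h1
  have h2 := (LinearMap.isNilpotent_trace_of_isNilpotent h1').eq_zero
  rw [LinearMap.trace_eq_matrix_trace ℝ b, LinearMap.toMatrix_mul] at h2
  simp only [Matrix.trace, Matrix.diag_apply, Matrix.mul_apply, LinearMap.toMatrix_apply,
    LieModule.toEnd_apply_apply] at h2
  rw [← h2]
  exact Finset.sum_congr rfl fun i _ => Finset.sum_congr rfl fun j _ => mul_comm _ _

end

end R877.RN.G1
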