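import Pool.Agent.R294.RN.G1A
import Pool.Agent.R294.RN.G1B
import Pool.Agent.R294.RN.G1C
import Pool.Agent.R294.RN.G1D

set_option autoImplicit false

namespace R877.RN.G1
open Matrix Filter Topology R877.RN

section
variable {g : Type} [LieRing g] [LieAlgebra ℝ g]

theorem exists_adapted [FiniteDimensional ℝ g] (B : g →ₗ[ℝ] g →ₗ[ℝ] ℝ) (hB : IsInner B)
    (n : LieIdeal ℝ g) {k N : ℕ} (e : Fin k → g) (b : Module.Basis (Fin N) ℝ n)
    (he : ∀ i j, B (e i) (e j) = if i = j then 1 else 0)
    (heU : ∀ i, ∀ u ∈ n.toSubmodule, B (e i) u = 0)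
    (hspan : Submodule.span ℝ (Set.range e) ⊔ n.toSubmodule = ⊤)
    (hb : ∀ i j, B (b i) (b j) = if i = j then 1 else 0) :
    ∃ bb : Module.Basis (Fin k ⊕ Fin N) ℝ g, (∀ a, bb (Sum.inl a) = e a) ∧
      (∀ i, bb (Sum.inr i) = (b i : g)) ∧ ∀ s t, B (bb s) (bb t) = if s = t then 1 else 0 := by
  set v : Fin k ⊕ Fin N → g := Sum.elim e (fun i => (b i : g)) with hv
  have horth : ∀ s t, B (v s) (v t) = if s = t then 1 else 0 := by
    rintro (s | s) (t | t)
    · simp only [hv, Sum.elim_inl, he, Sum.inl.injEq]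
    · simp only [hv, Sum.elim_inl, Sum.elim_inr, reduceCtorEq, if_false]
      exact heU s _ (b t).2
    · simp only [hv, Sum.elim_inl, Sum.elim_inr, reduceCtorEq, if_false]
      rw [hB.symm]
      exact heU t _ (b s).2
    · simp only [hv, Sum.elim_inr, hb, Sum.inr.injEq]
  have hli : LinearIndependent ℝ v := by
    rw [Fintype.linearIndependent_iff]
    intro c hc t
    have h1 : B (∑ s, c s • v s) (v t) = 0 := by rw [hc]; simp
    rw [map_sum, LinearMap.sum_apply] at h1
    simp only [map_smul, LinearMap.smul_apply, horth, smul_eq_mul, mul_ite, mul_one,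
      mul_zero] at h1
    rw [Finset.sum_ite_eq' Finset.univ t c, if_pos (Finset.mem_univ t)] at h1
    exact h1
  have hsp : ⊤ ≤ Submodule.span ℝ (Set.range v) := by
    rw [hv, Set.Sum.elim_range, Submodule.span_union, ← hspan]
    apply sup_le_sup_left
    have h2 : (Set.range fun i => (b i : g)) = n.toSubmodule.subtype '' (Set.range b) := by
      rw [← Set.range_comp]; rfl
    rw [h2, Submodule.span_image]
    have h3 : Submodule.span ℝ (Set.range b) = ⊤ := b.span_eq
    have h4 : Submodule.map n.toSubmodule.subtype (⊤ : Submodule ℝ n.toSubmodule) =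
        n.toSubmodule := by
      rw [Submodule.map_top, Submodule.range_subtype]
    exact (h4.symm.le).trans (Submodule.map_mono h3.symm.le)
  refine ⟨Module.Basis.mk hli hsp, ?_, ?_, ?_⟩
  · intro a; rw [Module.Basis.mk_apply]; rfl
  · intro a; rw [Module.Basis.mk_apply]; rfl
  · intro s t; rw [Module.Basis.mk_apply, Module.Basis.mk_apply]; exact horth s t

theorem repr_facts {n : LieIdeal ℝ g} {k N : ℕ} (b : Module.Basis (Fin N) ℝ n)
    (bb : Module.Basis (Fin k ⊕ Fin N) ℝ g) (hbb : ∀ i, bb (Sum.inr i) = (b i : g)) (u : n) :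
    (∀ a, bb.repr (u : g) (Sum.inl a) = 0) ∧ ∀ i, bb.repr (u : g) (Sum.inr i) = b.repr u i := by
  have h1 : (u : g) = ∑ i, b.repr u i • bb (Sum.inr i) := by
    have h2 : ((∑ i, b.repr u i • b i : n) : g) = (u : g) := by rw [b.sum_repr]
    rw [← h2]
    simp only [hbb]
    push_cast
    rfl
  constructor
  · intro a
    rw [h1]
    simp [Finsupp.single_apply]
  · intro i
    conv_lhs => rw [h1]
    simp [Finsupp.single_apply]

end

end R877.RN.G1

namespace R877.RN
open Matrix Filter Topology R877.RN.G1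

theorem p_G1 (hR : P_RIC) : P_G1 := by
  intro g _ _ _ n hn hder hNeg
  obtain ⟨B, D, hB, hD, hneg⟩ := hNeg
  obtain ⟨k, e, he, heU, hspan, b0, hb0⟩ := exists_onb B hB n.toSubmodule
  refine ⟨k, e, hspan, ?_⟩
  intro N β
  have hN : Module.finrank ℝ n.toSubmodule = N := by
    have := Module.finrank_eq_card_basis β
    rw [Fintype.card_fin] at this
    exact this
  let b : Module.Basis (Fin N) ℝ n := b0.reindex (finCongr hN)
  have hb : ∀ i j, B (b i) (b j) = if i = j then 1 else 0 := by
    intro i j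
    have h1 : ∀ i, ((b i : n) : g) = b0 ((finCongr hN).symm i) := by
      intro i
      show ((b0.reindex (finCongr hN) i : n.toSubmodule) : g) = _
      rw [Module.Basis.reindex_apply]
    rw [h1, h1, hb0]
    simp
  obtain ⟨bb, hbe, hbb, horth⟩ := exists_adapted B hB n e b he heU hspan hb
  set μ : Br N := muOf b with hμ
  set A : Fin k → Mat N := fun a => adOf b (e a) with hA
  set G : Fin k → Fin k → Fin N → ℝ := fun a a' j => bb.repr ⁅e a, e a'⁆ (Sum.inr j) with hG
  set τ : Fin k → ℝ := fun a => LinearMap.trace ℝ g (LieAlgebra.ad ℝ g (e a)) with hτ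
  have h0 : ∀ i j a, sc bb i j (Sum.inl a) = 0 := by
    intro i j a
    exact (repr_facts b bb hbb ⟨⁅bb i, bb j⁆, hder _ _⟩).1 a
  have h1 : ∀ p i j, sc bb (Sum.inr p) (Sum.inr i) (Sum.inr j) = μ p i j := by
    intro p i j
    have h2 : ⁅bb (Sum.inr p), bb (Sum.inr i)⁆ = ((⁅b p, b i⁆ : n) : g) := by
      rw [hbb, hbb]; rfl
    unfold sc
    rw [h2, (repr_facts b bb hbb ⁅b p, b i⁆).2 j]
    rfl
  have h2 : ∀ a p j, sc bb (Sum.inl a) (Sum.inr p) (Sum.inr j) = A a j p := by
    intro a p j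
    have h3 : ⁅bb (Sum.inl a), bb (Sum.inr p)⁆ = ((⁅e a, b p⁆ : n) : g) := by
      rw [hbb, hbe]; rfl
    unfold sc
    rw [h3, (repr_facts b bb hbb ⁅e a, b p⁆).2 j]
    rfl
  have h3 : ∀ a p j, sc bb (Sum.inr p) (Sum.inl a) (Sum.inr j) = - A a j p := by
    intro a p j
    rw [← h2]
    unfold sc
    rw [← lie_skew, map_neg]
    rfl
  have h4 : ∀ a a' j, sc bb (Sum.inl a) (Sum.inl a') (Sum.inr j) = G a a' j := by
    intro a a' j
    unfold sc
    rw [hbe, hbe]
  have h5 : ∀ a, ∑ i, sc bb (Sum.inl a) i i = τ a := by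
    intro a
    simp only [hτ]
    rw [LinearMap.trace_eq_matrix_trace ℝ bb, Matrix.trace]
    refine Finset.sum_congr rfl fun i _ => ?_
    rw [Matrix.diag_apply, LinearMap.toMatrix_apply]
    unfold sc
    rw [hbe]
    rfl
  have h6 : ∀ a, ∑ i, sc bb (Sum.inr a) i i = 0 := by
    intro a
    rw [Fintype.sum_sum_type]
    simp only [h0, h1, Finset.sum_const_zero, zero_add]
    exact tr0 b hn (b a)
  -- the matrix
  set F : Mat N := gm (Finset.univ ×ˢ Finset.univ : Finset (Fin k × Fin k))
          (fun t i => (1/2) * G t.1 t.2 i) with hF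
  have hRF : ∀ x : Fin N → ℝ, x ≠ 0 →
      qf (Mm μ + (1/2 : ℝ) • ∑ a, com (A a) + F) x - qf (∑ a, τ a • A a) x < 0 := by
    intro x hx
    set u : n := ∑ p, x p • b p with hu
    have hru : ∀ i, b.repr u i = x i := by
      intro i
      rw [hu]
      simp [Finsupp.single_apply]
    have hrep : (fun i => bb.repr (u : g) i) = Sum.elim (fun _ => 0) x := by
      funext s
      rcases s with a | i
      · exact (repr_facts b bb hbb u).1 a
      · rw [(repr_facts b bb hbb u).2 i, hru]; rfl
    have hu0 : (u : g) ≠ 0 := by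
      intro h
      apply hx
      funext i
      have h7 : u = 0 := by ext1; exact h
      rw [← hru i, h7]; simp
    have hK : ∑ i, ∑ j, (∑ p, x p * μ p i j) * (∑ p, x p * μ p j i) = 0 := by
      have h8 := tr1 b hn u
      have h9 : ∀ i j, b.repr ⁅u, b i⁆ j = ∑ p, x p * μ p i j := by
        intro i j
        rw [hu, sum_lie]
        simp only [smul_lie, map_sum, map_smul, Finsupp.coe_finsetSum, Finset.sum_apply,
          Finsupp.coe_smul, Pi.smul_apply, smul_eq_mul]
        rfl
      simp only [h9] at h8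
      exact h8
    have h10 := hR g (Fin k ⊕ Fin N) bb B D hB hD horth (u : g)
    rw [hrep, rf_sum (sc bb) μ A G τ h0 h1 h2 h3 h4 h5 h6 x hK] at h10
    rw [← h10]
    exact hneg _ hu0
  obtain ⟨δ, hδ, hlow⟩ := qf_lower
    ((∑ a, τ a • A a) - (Mm μ + (1/2 : ℝ) • ∑ a, com (A a) + F)) (by
      intro x hx
      rw [qf_sub]
      have := hRF x hx
      linarith)
  refine ⟨b.toMatrix β, F, δ, hδ, ?_, ?_, ?_⟩
  · exact Matrix.isUnit_det_of_right_inverse (b.toMatrix_mul_toMatrix_flip β)
  · intro x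
    rw [hF, qf_gm]
    exact Finset.sum_nonneg fun t _ => sq_nonneg _
  · intro x
    rw [act_c, conj_c, adOf_sum]
    simp only [conj_c]
    have := hlow x
    rw [qf_sub] at this
    linarith

end R877.RN
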