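import Pool.Agent.R877.RN.Stm2

set_option autoImplicit false

namespace R877.RN.G1
open Matrix Filter Topology R877.RN

theorem qf_add {n : ℕ} (A B : Mat n) (x : Fin n → ℝ) : qf (A + B) x = qf A x + qf B x := by
  simp [qf, Matrix.add_mulVec, dotProduct_add]

theorem qf_sub {n : ℕ} (A B : Mat n) (x : Fin n → ℝ) : qf (A - B) x = qf A x - qf B x := by
  simp [qf, Matrix.sub_mulVec, dotProduct_sub]

theorem qf_smul {n : ℕ} (r : ℝ) (A : Mat n) (x : Fin n → ℝ) : qf (r • A) x = r * qf A x := by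
  simp [qf, Matrix.smul_mulVec, dotProduct_smul]

theorem qf_sum {n : ℕ} {ι : Type} (s : Finset ι) (A : ι → Mat n) (x : Fin n → ℝ) :
    qf (∑ a ∈ s, A a) x = ∑ a ∈ s, qf (A a) x := by
  classical
  induction s using Finset.induction_on with
  | empty => simp [qf]
  | insert a s ha ih => rw [Finset.sum_insert ha, Finset.sum_insert ha, qf_add, ih]

theorem qf_eq {n : ℕ} (A : Mat n) (x : Fin n → ℝ) : qf A x = ∑ i, ∑ j, x i * A i j * x j := by
  simp only [qf, dotProduct, mulVec]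
  refine Finset.sum_congr rfl fun i _ => ?_
  rw [Finset.mul_sum]
  exact Finset.sum_congr rfl fun j _ => by ring

/-- Gram matrix -/
noncomputable def gm {n : ℕ} {κ : Type} (s : Finset κ) (v : κ → Fin n → ℝ) : Mat n :=
  Matrix.of fun i j => ∑ t ∈ s, v t i * v t j

theorem qf_gm {n : ℕ} {κ : Type} (s : Finset κ) (v : κ → Fin n → ℝ) (x : Fin n → ℝ) :
    qf (gm s v) x = ∑ t ∈ s, (∑ i, x i * v t i) ^ 2 := by
  rw [qf_eq]
  have h1 : ∀ t ∈ s, (∑ i, x i * v t i) ^ 2 = ∑ i, ∑ j, x i * (v t i * v t j) * x j := by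
    intro t _
    rw [sq, Finset.sum_mul_sum]
    exact Finset.sum_congr rfl fun i _ => Finset.sum_congr rfl fun j _ => by ring
  have h2 : ∑ t ∈ s, (∑ i, x i * v t i) ^ 2 =
      ∑ t ∈ s, ∑ i, ∑ j, x i * (v t i * v t j) * x j := Finset.sum_congr rfl h1
  rw [h2]
  symm
  rw [Finset.sum_comm]
  refine Finset.sum_congr rfl fun i _ => ?_
  rw [Finset.sum_comm]
  refine Finset.sum_congr rfl fun j _ => ?_
  simp only [gm, Matrix.of_apply]
  rw [Finset.mul_sum, Finset.sum_mul]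

theorem qf_Mm {n : ℕ} (μ : Br n) (x : Fin n → ℝ) : qf (Mm μ) x =
    -(1/2) * ∑ p, ∑ k, (∑ i, x i * μ i p k) ^ 2 + (1/4) * ∑ p, ∑ q, (∑ i, x i * μ p q i) ^ 2 := by
  have e : Mm μ = (-(1/2) : ℝ) • gm (Finset.univ ×ˢ Finset.univ : Finset (Fin n × Fin n))
        (fun t i => μ i t.1 t.2)
      + (1/4 : ℝ) • gm (Finset.univ ×ˢ Finset.univ : Finset (Fin n × Fin n))
        (fun t i => μ t.1 t.2 i) := by
    ext i j
    simp only [Mm, gm, Matrix.add_apply, Matrix.smul_apply, smul_eq_mul, Finset.sum_product,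
      Matrix.of_apply]
  rw [e, qf_add, qf_smul, qf_smul, qf_gm, qf_gm, Finset.sum_product, Finset.sum_product]

theorem qf_com {n : ℕ} (A : Mat n) (x : Fin n → ℝ) : qf (com A) x =
    ∑ p, (∑ k, x k * A k p) ^ 2 - ∑ k, (∑ p, x p * A k p) ^ 2 := by
  have e1 : A * Aᵀ = gm Finset.univ (fun (t : Fin n) (i : Fin n) => A i t) := by
    ext i j; simp [Matrix.mul_apply, gm]
  have e2 : Aᵀ * A = gm Finset.univ (fun (t : Fin n) (i : Fin n) => A t i) := by
    ext i j; simp [Matrix.mul_apply, gm]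
  unfold com
  rw [qf_sub, e1, e2, qf_gm, qf_gm]

theorem rf_sum {k N : ℕ} (c : Fin k ⊕ Fin N → Fin k ⊕ Fin N → Fin k ⊕ Fin N → ℝ)
    (μ : Br N) (A : Fin k → Mat N) (G : Fin k → Fin k → Fin N → ℝ) (τ : Fin k → ℝ)
    (h0 : ∀ i j a, c i j (Sum.inl a) = 0)
    (h1 : ∀ p i j, c (Sum.inr p) (Sum.inr i) (Sum.inr j) = μ p i j)
    (h2 : ∀ a p j, c (Sum.inl a) (Sum.inr p) (Sum.inr j) = A a j p)
    (h3 : ∀ a p j, c (Sum.inr p) (Sum.inl a) (Sum.inr j) = - A a j p)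
    (h4 : ∀ a a' j, c (Sum.inl a) (Sum.inl a') (Sum.inr j) = G a a' j)
    (hτ : ∀ a, ∑ i, c (Sum.inl a) i i = τ a) (hz : ∀ a, ∑ i, c (Sum.inr a) i i = 0)
    (x : Fin N → ℝ) (hK : ∑ i, ∑ j, (∑ p, x p * μ p i j) * (∑ p, x p * μ p j i) = 0) :
    RF c (Sum.elim (fun _ => 0) x) =
      qf (Mm μ + (1/2 : ℝ) • ∑ a, com (A a) +
        gm (Finset.univ ×ˢ Finset.univ : Finset (Fin k × Fin k))
          (fun t i => (1/2) * G t.1 t.2 i)) x
        - qf (∑ a, τ a • A a) x := by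
  rw [qf_add, qf_add, qf_smul, qf_sum, qf_Mm, qf_sum, qf_gm, Finset.sum_product]
  simp only [qf_com, qf_smul]
  unfold RF
  simp only [Fintype.sum_sum_type, h0, h1, h2, Finset.sum_const_zero, zero_add] at hτ hz
  simp only [Fintype.sum_sum_type, Sum.elim_inl, Sum.elim_inr, zero_mul, mul_zero,
    Finset.sum_const_zero, zero_add, add_zero, h0, h1, h2, h3, h4, hτ, hz]
  simp only [mul_neg, Finset.sum_neg_distrib, neg_sq, ne_eq, OfNat.ofNat_ne_zero,
    not_false_eq_true, zero_pow, Finset.sum_const_zero, zero_add, hK, mul_zero, sub_zero]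
  have e1 : ∀ a a' : Fin k, (∑ i, x i * (1 / 2 * G a a' i)) ^ 2 =
      (1 / 4) * (∑ i, x i * G a a' i) ^ 2 := by
    intro a a'
    have : ∑ i, x i * (1 / 2 * G a a' i) = (1 / 2) * ∑ i, x i * G a a' i := by
      rw [Finset.mul_sum]
      exact Finset.sum_congr rfl fun i _ => by ring
    rw [this]; ring
  have e2 : ∀ a : Fin k, qf (A a) x = ∑ p, ∑ q, x p * A a q p * x q := by
    intro a
    rw [qf_eq, Finset.sum_comm]
    exact Finset.sum_congr rfl fun i _ => Finset.sum_congr rfl fun j _ => by ring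
  have e3 : ∑ i : Fin N, ∑ a : Fin k, (∑ j, x j * A a j i) ^ 2 =
      ∑ a : Fin k, ∑ i : Fin N, (∑ j, x j * A a j i) ^ 2 := Finset.sum_comm
  simp only [e1, e2, Finset.sum_add_distrib, Finset.sum_sub_distrib, ← Finset.mul_sum, e3]
  ring

end R877.RN.G1
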